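import Pool.Agent.Y682.XT.Fin
import Pool.Agent.Y692.XT.Inert

/-! Project YQ: the primes different from `0, ±1` modulo `9` (and `3, 6`) are inert in the layers of the
cyclotomic `ℤ₃`-extension. -/

set_option autoImplicit false

namespace Pool.Agent.Y682.YQ

open NumberField
open Pool.Agent.Y682.XT

theorem inert9 (n : ℕ) (M : Type) [Field M] [NumberField M]
    [IsCyclotomicExtension {3 ^ (n + 1)} ℚ M] (K : IntermediateField ℚ M)
    (hodd : Odd (Module.finrank ℚ K)) {p : ℕ} (hp : p.Prime)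
    (h9 : p % 9 = 2 ∨ p % 9 = 4 ∨ p % 9 = 5 ∨ p % 9 = 7) :
    (Ideal.span {((p : ℕ) : 𝓞 K)}).IsPrime := by
  have hc : Nat.Coprime p (3 ^ (n + 1)) := by
    apply Nat.Coprime.pow_right
    rw [Nat.coprime_primes hp Nat.prime_three]
    rintro rfl
    omega
  have ht : ((ZMod.unitOfCoprime p hc : (ZMod (3 ^ (n + 1)))ˣ) : ZMod (3 ^ (n + 1))) = (p : ℕ) :=
    ZMod.coe_unitOfCoprime _ _
  refine prime_of_gen Pool.Agent.Y692.XT.inert hp ht fun x => ?_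
  obtain ⟨m, r, hm, hr⟩ : ∃ m r : ℕ, p = 9 * m + r ∧ (r = 2 ∨ r = 4 ∨ r = 5 ∨ r = 7) :=
    ⟨p / 9, p % 9, (Nat.div_add_mod p 9).symm, h9⟩
  obtain ⟨a, ha, hpa⟩ : ∃ a : ℤ, ¬ (3 : ℤ) ∣ a ∧ (p : ℤ) ^ 2 = 1 + 3 * a := by
    subst hm
    rcases hr with rfl | rfl | rfl | rfl
    · refine ⟨27 * m ^ 2 + 12 * m + 1, by omega, by push_cast; ring⟩
    · refine ⟨27 * m ^ 2 + 24 * m + 5, by omega, by push_cast; ring⟩
    · refine ⟨27 * m ^ 2 + 30 * m + 8, by omega, by push_cast; ring⟩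
    · refine ⟨27 * m ^ 2 + 42 * m + 16, by omega, by push_cast; ring⟩
  have h1 := gen_three (c := ZMod.unitOfCoprime p hc ^ 2) hodd ha (by
    rw [Units.val_pow_eq_pow_val, ht]
    have h2 := congrArg (fun z : ℤ => (z : ZMod (3 ^ (n + 1)))) hpa
    push_cast at h2 ⊢
    exact h2) x
  rw [map_pow] at h1
  exact (Subgroup.zpowers_le.2 (Subgroup.npow_mem_zpowers _ 2)) h1

end Pool.Agent.Y682.YQ
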